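import Pool.Agent.J6H38.DX.Stm
import Pool.Agent.J6H64.NX.GL
import Pool.Agent.J6H9.NX.G2

/-!
Module BETW of the DX project (helper38; port of J6H40.DIR.Betw, author helper40): a rational face strictly between two directions which are
not in the same face.
-/

set_option autoImplicit false

open MeasureTheory ProbabilityTheory Filter Topology
open scoped ENNReal

namespace Pool.Agent.J6H49.DX

open Pool.Agent.J6H99.NX Pool.Agent.J6H9.NX Pool.Agent.J6H64.NX Pool.Agent.J6H38.DX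

section gen

variable {e : ℕ} {q : Par} {F : Measure ℝ} [IsProbabilityMeasure F] [MB q F]

theorem supp_smul {c y : E e} {t : ℝ} (ht : 0 < t) (h : Supp q F c y) : Supp q F c (t • y) := by
  rw [supp_iff] at h ⊢
  refine ⟨h.1, ?_⟩
  rw [dt_smul, L_smul ht, h.2]

theorem supp_add {c y z : E e} (h : Supp q F c y) (h' : Supp q F c z) : Supp q F c (y + z) := by
  rw [supp_iff] at h h' ⊢
  refine ⟨h.1, le_antisymm (dt_le_L h.1 _) ?_⟩
  rw [dt_add, h.2, h'.2]
  exact L_add y z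

theorem supp_of_smul {c y : E e} {t : ℝ} (ht : 0 < t) (h : Supp q F c (t • y)) :
    Supp q F c y := by
  have := supp_smul (inv_pos.2 ht) h
  rwa [smul_smul, inv_mul_cancel₀ ht.ne', one_smul] at this

end gen

variable {q : Par} {F : Measure ℝ} [IsProbabilityMeasure F] [MB q F]

theorem cr_add (u v w : E 0) : cr u (v + w) = cr u v + cr u w := by
  unfold cr
  simp only [Pi.add_apply]
  ring

theorem cr_smul (u v : E 0) (t : ℝ) : cr u (t • v) = t * cr u v := by
  unfold cr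
  simp only [Pi.smul_apply, smul_eq_mul]
  ring

theorem cr_swap (u v : E 0) : cr u v = -cr v u := by
  unfold cr
  ring

theorem cr_self (u : E 0) : cr u u = 0 := by
  unfold cr
  ring

theorem nsq_pos {y : E 0} (hy : y ≠ 0) : 0 < y 0 ^ 2 + y 1 ^ 2 := by
  by_contra hle
  push Not at hle
  have h0 : y 0 = 0 := by nlinarith [sq_nonneg (y 0), sq_nonneg (y 1)]
  have h1 : y 1 = 0 := by nlinarith [sq_nonneg (y 0), sq_nonneg (y 1)]
  apply hy
  funext i
  have : i = 0 ∨ i = 1 := by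
    fin_cases i
    · exact Or.inl rfl
    · exact Or.inr rfl
  rcases this with rfl | rfl
  · simpa using h0
  · simpa using h1

theorem ext2 {u v : E 0} (h0 : u 0 = v 0) (h1 : u 1 = v 1) : u = v := by
  funext i
  have : i = 0 ∨ i = 1 := by
    fin_cases i
    · exact Or.inl rfl
    · exact Or.inr rfl
  rcases this with rfl | rfl
  · exact h0
  · exact h1

/-- parallel vectors -/
theorem par {y m : E 0} (hy : y ≠ 0) (h : cr y m = 0) : ∃ ν : ℝ, m = ν • y := by
  have hp := nsq_pos hy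
  have hp' := hp.ne'
  unfold cr at h
  refine ⟨(y 0 * m 0 + y 1 * m 1) / (y 0 ^ 2 + y 1 ^ 2), ext2 ?_ ?_⟩
  · rw [Pi.smul_apply, smul_eq_mul, div_mul_eq_mul_div, eq_div_iff hp']
    linear_combination (-(y 1)) * h
  · rw [Pi.smul_apply, smul_eq_mul, div_mul_eq_mul_div, eq_div_iff hp']
    linear_combination (y 0) * h

/-- the functional of a face is positive on it -/
theorem pos_of_supp (hS : Smooth q F) {c k : E 0} (hk : k ≠ 0) (h : Supp q F c k) : 0 < dt c k := by
  obtain ⟨c', -, -, h2, h3⟩ := hS k hk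
  rw [h3 c h]
  exact h2

theorem uniq_supp (hS : Smooth q F) {c c' k : E 0} (hk : k ≠ 0) (h : Supp q F c k)
    (h' : Supp q F c' k) : c = c' := by
  obtain ⟨d, -, -, -, h3⟩ := hS k hk
  rw [h3 c h, h3 c' h']

/-- a face which contains a point `a y0 + b y1` but neither `y0` nor `y1` does not cross the line of
`y0` -/
theorem side (hS : Smooth q F) {c y0 y1 v k : E 0} {a b : ℝ} (hy0 : y0 ≠ 0) (ha : 0 < a)
    (hb : 0 < b) (hv : v = a • y0 + b • y1) (hv0 : v ≠ 0) (hcr : cr y0 y1 ≠ 0)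
    (hcv : Supp q F c v)
    (h0 : ¬ Supp q F c y0) (h1 : ¬ Supp q F c y1) (hk0 : k ≠ 0) (hk : Supp q F c k) :
    0 < cr y0 v * cr y0 k := by
  by_contra hcon
  push Not at hcon
  have hA : cr y0 v ≠ 0 := by
    rw [hv, cr_add, cr_smul, cr_smul, cr_self]
    simp only [mul_zero, zero_add]
    exact mul_ne_zero hb.ne' hcr
  set A := cr y0 v with hAd
  set B := cr y0 k with hBd
  have hA2 : 0 < A ^ 2 := by positivity
  obtain ⟨m, hm, hms, hmd⟩ : ∃ m : E 0, cr y0 m = 0 ∧ Supp q F c m ∧ 0 < dt c m := by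
    refine ⟨A ^ 2 • k + (-(A * B)) • v, ?_, ?_, ?_⟩
    · rw [cr_add, cr_smul, cr_smul, ← hAd, ← hBd]
      ring
    · rcases (neg_nonneg.mpr hcon).eq_or_lt with h | h
      · rw [← h, zero_smul, add_zero]
        exact supp_smul hA2 hk
      · exact supp_add (supp_smul hA2 hk) (supp_smul h hcv)
    · rw [dt_add, dt_smul, dt_smul]
      have g1 := pos_of_supp hS hk0 hk
      have g2 := pos_of_supp hS hv0 hcv
      have g3 : 0 ≤ -(A * B) := neg_nonneg.mpr hcon
      have g4 := mul_pos hA2 g1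
      have g5 := mul_nonneg g3 g2.le
      linarith
  obtain ⟨ν, hν⟩ := par hy0 hm
  rcases lt_trichotomy ν 0 with h | h | h
  · -- `-y0` is in the face
    have g1 : Supp q F c ((-a * ν⁻¹) • m) := supp_smul (by
      have : ν⁻¹ < 0 := inv_lt_zero.mpr h
      nlinarith) hms
    have g2 : (-a * ν⁻¹) • m = (-a) • y0 := by
      rw [hν, smul_smul, mul_assoc, inv_mul_cancel₀ h.ne, mul_one]
    rw [g2] at g1
    have g3 := supp_add hcv g1
    have g4 : v + (-a) • y0 = b • y1 := by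
      rw [hv]
      module
    rw [g4] at g3
    exact h1 (supp_of_smul hb g3)
  · rw [hν, h, zero_smul] at hmd
    have : dt c (0 : E 0) = 0 := by simp [dt]
    rw [this] at hmd
    exact lt_irrefl _ hmd
  · rw [hν] at hms
    exact h0 (supp_of_smul h hms)

/-- a lattice point in an open cone -/
theorem lat_cone {p r w : E 0} (h1 : 0 < cr p w) (h2 : 0 < cr w r) :
    ∃ v : V 0, 0 < cr p (vc v) ∧ 0 < cr (vc v) r := by
  obtain ⟨n, hn⟩ := exists_nat_gt (max ((|p 0| + |p 1|) / cr p w) ((|r 0| + |r 1|) / cr w r))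
  have hn1 : (|p 0| + |p 1|) / cr p w < n := lt_of_le_of_lt (le_max_left _ _) hn
  have hn2 : (|r 0| + |r 1|) / cr w r < n := lt_of_le_of_lt (le_max_right _ _) hn
  rw [div_lt_iff₀ h1] at hn1
  rw [div_lt_iff₀ h2] at hn2
  refine ⟨rnd ((n : ℝ) • w), ?_, ?_⟩
  · have f0 := Int.floor_le ((n : ℝ) * w 0)
    have f1 := Int.lt_floor_add_one ((n : ℝ) * w 0)
    have f2 := Int.floor_le ((n : ℝ) * w 1)
    have f3 := Int.lt_floor_add_one ((n : ℝ) * w 1)
    unfold cr at hn1 ⊢
    show 0 < p 0 * ((⌊(n : ℝ) * w 1⌋ : ℤ) : ℝ) - p 1 * ((⌊(n : ℝ) * w 0⌋ : ℤ) : ℝ)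
    set x := ((⌊(n : ℝ) * w 0⌋ : ℤ) : ℝ)
    set y := ((⌊(n : ℝ) * w 1⌋ : ℤ) : ℝ)
    have g1 : |p 0 * (n * w 1 - y)| ≤ |p 0| := by
      rw [abs_mul, abs_of_nonneg (by linarith : 0 ≤ n * w 1 - y)]
      exact mul_le_of_le_one_right (abs_nonneg _) (by linarith)
    have g2 : |p 1 * (n * w 0 - x)| ≤ |p 1| := by
      rw [abs_mul, abs_of_nonneg (by linarith : 0 ≤ n * w 0 - x)]
      exact mul_le_of_le_one_right (abs_nonneg _) (by linarith)
    have g3 := (abs_le.mp g1).2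
    have g4 := (abs_le.mp g2).1
    nlinarith
  · have f0 := Int.floor_le ((n : ℝ) * w 0)
    have f1 := Int.lt_floor_add_one ((n : ℝ) * w 0)
    have f2 := Int.floor_le ((n : ℝ) * w 1)
    have f3 := Int.lt_floor_add_one ((n : ℝ) * w 1)
    unfold cr at hn2 ⊢
    show 0 < ((⌊(n : ℝ) * w 0⌋ : ℤ) : ℝ) * r 1 - ((⌊(n : ℝ) * w 1⌋ : ℤ) : ℝ) * r 0
    set x := ((⌊(n : ℝ) * w 0⌋ : ℤ) : ℝ)
    set y := ((⌊(n : ℝ) * w 1⌋ : ℤ) : ℝ)
    have g1 : |r 1 * (n * w 0 - x)| ≤ |r 1| := by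
      rw [abs_mul, abs_of_nonneg (by linarith : 0 ≤ n * w 0 - x)]
      exact mul_le_of_le_one_right (abs_nonneg _) (by linarith)
    have g2 : |r 0 * (n * w 1 - y)| ≤ |r 0| := by
      rw [abs_mul, abs_of_nonneg (by linarith : 0 ≤ n * w 1 - y)]
      exact mul_le_of_le_one_right (abs_nonneg _) (by linarith)
    have g3 := (abs_le.mp g1).2
    have g4 := (abs_le.mp g2).1
    nlinarith

/-- points of the segment -/
def seg (y0 y1 : E 0) (t : ℝ) : E 0 := (1 - t) • y0 + t • y1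

theorem cr_seg (y0 y1 : E 0) (s t : ℝ) :
    cr (seg y0 y1 s) (seg y0 y1 t) = (t - s) * cr y0 y1 := by
  unfold seg cr
  simp only [Pi.add_apply, Pi.smul_apply, smul_eq_mul]
  ring

theorem seg_cont (y0 y1 : E 0) : Continuous (seg y0 y1) := by
  unfold seg
  fun_prop

theorem seg_ne {y0 y1 : E 0} (h : cr y0 y1 ≠ 0) (t : ℝ) : seg y0 y1 t ≠ 0 := by
  intro h0
  have e1 : cr y0 (seg y0 y1 t) = t * cr y0 y1 := by
    unfold seg cr
    simp only [Pi.add_apply, Pi.smul_apply, smul_eq_mul]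
    ring
  have e2 : cr (seg y0 y1 t) y1 = (1 - t) * cr y0 y1 := by
    unfold seg cr
    simp only [Pi.add_apply, Pi.smul_apply, smul_eq_mul]
    ring
  rw [h0] at e1 e2
  have e3 : cr y0 (0 : E 0) = 0 := by simp [cr]
  have e4 : cr (0 : E 0) y1 = 0 := by simp [cr]
  rw [e3] at e1
  rw [e4] at e2
  rcases mul_eq_zero.mp e1.symm with h1 | h1
  · rcases mul_eq_zero.mp e2.symm with h2 | h2
    · linarith
    · exact h h2
  · exact h h1

/-- the main case -/
theorem caseA (hS : Smooth q F) {c0 y0 y1 : E 0} (h : 0 < cr y0 y1) (h0 : Supp q F c0 y0)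
    (h1 : ¬ Supp q F c0 y1) : ∃ (c : E 0) (v : V 0), v ≠ 0 ∧ Supp q F c (vc v) ∧
      ∀ k : E 0, k ≠ 0 → Supp q F c k → 0 < cr y0 k ∧ 0 < cr k y1 := by
  have hy0 : y0 ≠ 0 := by
    rintro rfl
    simp [cr] at h
  have hy1 : y1 ≠ 0 := by
    rintro rfl
    simp [cr] at h
  have hne := seg_ne h.ne'
  obtain ⟨c1, hc1, -⟩ := hS y1 hy1
  have e0 : seg y0 y1 0 = y0 := by simp [seg]
  have e1 : seg y0 y1 1 = y1 := by simp [seg]
  -- the last point of the face of `c0`
  have hcl : ∀ c : E 0, IsClosed {t : ℝ | Supp q F c (seg y0 y1 t)} := fun c =>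
    (supp_closed c).preimage (seg_cont y0 y1)
  have hA0 : IsCompact (Set.Icc (0 : ℝ) 1 ∩ {t : ℝ | Supp q F c0 (seg y0 y1 t)}) :=
    isCompact_Icc.inter_right (hcl c0)
  have hA0n : (Set.Icc (0 : ℝ) 1 ∩ {t : ℝ | Supp q F c0 (seg y0 y1 t)}).Nonempty :=
    ⟨0, ⟨le_rfl, zero_le_one⟩, by show Supp q F c0 _; rw [e0]; exact h0⟩
  obtain ⟨s, ⟨⟨hs0, hs1⟩, hs⟩, hsmax⟩ := hA0.exists_isGreatest hA0n
  have hs' : Supp q F c0 (seg y0 y1 s) := hs
  -- the first point of the face of `c1`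
  have hA1 : IsCompact (Set.Icc s 1 ∩ {t : ℝ | Supp q F c1 (seg y0 y1 t)}) :=
    isCompact_Icc.inter_right (hcl c1)
  have hA1n : (Set.Icc s 1 ∩ {t : ℝ | Supp q F c1 (seg y0 y1 t)}).Nonempty :=
    ⟨1, ⟨hs1, le_rfl⟩, by show Supp q F c1 _; rw [e1]; exact hc1⟩
  obtain ⟨s', ⟨⟨hss, hs'1⟩, hs''⟩, hsmin⟩ := hA1.exists_isLeast hA1n
  have hs3 : Supp q F c1 (seg y0 y1 s') := hs''
  have hc01 : c0 ≠ c1 := by
    rintro rfl
    exact h1 hc1
  have hlt : s < s' := by
    rcases hss.eq_or_lt with h2 | h2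
    · exfalso
      rw [← h2] at hs3
      exact hc01 (uniq_supp hS (hne s) hs' hs3)
    · exact h2
  have hno0 : ∀ t, s < t → t < s' → ¬ Supp q F c0 (seg y0 y1 t) := by
    intro t ht1 ht2 hcon
    have := hsmax (show t ∈ Set.Icc (0 : ℝ) 1 ∩ {t : ℝ | Supp q F c0 (seg y0 y1 t)} from
      ⟨⟨by linarith, by linarith⟩, hcon⟩)
    linarith
  have hno1 : ∀ t, s < t → t < s' → ¬ Supp q F c1 (seg y0 y1 t) := by
    intro t ht1 ht2 hcon
    have := hsmin (show t ∈ Set.Icc s 1 ∩ {t : ℝ | Supp q F c1 (seg y0 y1 t)} from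
      ⟨⟨by linarith, by linarith⟩, hcon⟩)
    linarith
  -- a lattice point in between
  obtain ⟨v, hv1, hv2⟩ := lat_cone (p := seg y0 y1 s) (r := seg y0 y1 s')
    (w := seg y0 y1 ((s + s') / 2)) (by
      rw [cr_seg]
      exact mul_pos (by linarith) h) (by
      rw [cr_seg]
      exact mul_pos (by linarith) h)
  have hv0 : vc v ≠ 0 := by
    intro h2
    rw [h2] at hv1
    simp [cr] at hv1
  have hvn : v ≠ 0 := by
    rintro rfl
    exact hv0 vc_zero
  -- coordinates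
  set D := cr y0 y1 with hD
  set P := cr (vc v) (seg y0 y1 s') / ((s' - s) * D) with hP
  set R := cr (seg y0 y1 s) (vc v) / ((s' - s) * D) with hR
  have hD' : 0 < (s' - s) * D := mul_pos (by linarith) h
  have hP0 : 0 < P := div_pos hv2 hD'
  have hR0 : 0 < R := div_pos hv1 hD'
  have hdec : vc v = P • seg y0 y1 s + R • seg y0 y1 s' := by
    have gen : ∀ i : Fin 2, (vc v) i = P * (seg y0 y1 s) i + R * (seg y0 y1 s') i := by
      intro i
      rw [hP, hR, div_mul_eq_mul_div, div_mul_eq_mul_div, ← add_div, eq_div_iff hD'.ne']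
      have e3 : (s' - s) * D = cr (seg y0 y1 s) (seg y0 y1 s') := (cr_seg y0 y1 s s').symm
      rw [e3]
      have : i = 0 ∨ i = 1 := by
        fin_cases i
        · exact Or.inl rfl
        · exact Or.inr rfl
      rcases this with rfl | rfl
      · unfold cr
        ring
      · unfold cr
        ring
    exact ext2 (gen 0) (gen 1)
  obtain ⟨a, b, ha, hb, hab, t, ht1, ht2, ht3⟩ : ∃ a b : ℝ, 0 < a ∧ 0 < b ∧
      vc v = a • y0 + b • y1 ∧ ∃ t : ℝ, s < t ∧ t < s' ∧ vc v = (P + R) • seg y0 y1 t := by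
    refine ⟨P * (1 - s) + R * (1 - s'), P * s + R * s', ?_, ?_, ?_, (P * s + R * s') / (P + R), ?_,
      ?_, ?_⟩
    · have g1 : 0 < P * (1 - s) := mul_pos hP0 (by linarith)
      have g2 : 0 ≤ R * (1 - s') := mul_nonneg hR0.le (by linarith)
      linarith
    · have g1 : 0 ≤ P * s := mul_nonneg hP0.le hs0
      have g2 : 0 < R * s' := mul_pos hR0 (by linarith)
      linarith
    · rw [hdec]
      unfold seg
      module
    · rw [lt_div_iff₀ (by linarith)]
      nlinarith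
    · rw [div_lt_iff₀ (by linarith)]
      nlinarith
    · rw [hdec]
      have hPR : P + R ≠ 0 := by positivity
      have e4 : (P + R) • seg y0 y1 ((P * s + R * s') / (P + R)) =
          ((P + R) - (P * s + R * s')) • y0 + (P * s + R * s') • y1 := by
        unfold seg
        rw [smul_add, smul_smul, smul_smul]
        congr 2
        · rw [mul_sub, mul_one, mul_div_cancel₀ _ hPR]
        · rw [mul_div_cancel₀ _ hPR]
      rw [e4]
      unfold seg
      module
  have hPR : 0 < P + R := by linarith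
  obtain ⟨c, hc, -⟩ := hS (vc v) hv0
  have hct : Supp q F c (seg y0 y1 t) := by
    rw [ht3] at hc
    exact supp_of_smul hPR hc
  have hn0 : ¬ Supp q F c y0 := fun h2 => by
    rw [uniq_supp hS hy0 h2 h0] at hct
    exact hno0 t ht1 ht2 hct
  have hn1 : ¬ Supp q F c y1 := fun h2 => by
    rw [uniq_supp hS hy1 h2 hc1] at hct
    exact hno1 t ht1 ht2 hct
  refine ⟨c, v, hvn, hc, fun k hk0 hk => ?_⟩
  have k1 := side hS hy0 ha hb hab hv0 h.ne' hc hn0 hn1 hk0 hk
  have k2 := side hS hy1 hb ha (by rw [hab, add_comm]) hv0 (by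
    rw [cr_swap]
    exact neg_ne_zero.mpr h.ne') hc hn1 hn0 hk0 hk
  have k3 : cr y0 (vc v) = b * D := by
    rw [hab, cr_add, cr_smul, cr_smul, cr_self]
    ring
  have k4 : cr y1 (vc v) = -(a * D) := by
    rw [hab, cr_add, cr_smul, cr_smul, cr_self, cr_swap y1 y0]
    ring
  rw [k3] at k1
  rw [k4] at k2
  have hbD : 0 < b * D := mul_pos hb h
  have haD : 0 < a * D := mul_pos ha h
  constructor
  · exact (pos_iff_pos_of_mul_pos k1).mp hbD
  · rw [cr_swap k y1]
    have : 0 < (a * D) * (-cr y1 k) := by linarith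
    exact (pos_iff_pos_of_mul_pos this).mp haD

/-- **Module BETW.** -/
theorem betw : BetwT := by
  intro q F _ _ _ hS c0 y0 y1 hy0 hy1 h0 h1
  rcases lt_trichotomy (cr y0 y1) 0 with h | h | h
  · obtain ⟨c1, hc1, -⟩ := hS y1 hy1
    have hn : ¬ Supp q F c1 y0 := fun h2 => by
      rw [uniq_supp hS hy0 h2 h0] at hc1
      exact h1 hc1
    obtain ⟨c, v, hv, hcv, hk⟩ := caseA hS (y0 := y1) (y1 := y0) (by
      rw [cr_swap]
      linarith) hc1 hn
    exact ⟨c, v, hv, hcv, Or.inr hk⟩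
  · obtain ⟨ν, hν⟩ := par hy0 h
    have hν0 : ν < 0 := by
      rcases lt_trichotomy ν 0 with h2 | h2 | h2
      · exact h2
      · exfalso
        rw [h2, zero_smul] at hν
        exact hy1 hν
      · exfalso
        rw [hν] at h1
        exact h1 (supp_smul h2 h0)
    have hrel : ∀ k : E 0, cr k y1 = -ν * cr y0 k := by
      intro k
      rw [hν, cr_smul, cr_swap k y0]
      ring
    set y2 : E 0 := ![-y0 1, y0 0] with hy2
    have h02 : 0 < cr y0 y2 := by
      have := nsq_pos hy0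
      show 0 < y0 0 * y0 0 - y0 1 * (-y0 1)
      nlinarith
    by_cases hsup : Supp q F c0 y2
    · obtain ⟨c, v, hv, hcv, hk⟩ := caseA hS (c0 := c0) (y0 := y2) (y1 := y1) (by
        rw [hrel y2]
        exact mul_pos (by linarith) h02) hsup h1
      refine ⟨c, v, hv, hcv, Or.inl fun k hk0 hk1 => ?_⟩
      have h3 := (hk k hk0 hk1).2
      refine ⟨?_, h3⟩
      rw [hrel k] at h3
      exact (pos_iff_pos_of_mul_pos h3).mp (by linarith)
    · obtain ⟨c, v, hv, hcv, hk⟩ := caseA hS h02 h0 hsup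
      refine ⟨c, v, hv, hcv, Or.inl fun k hk0 hk1 => ?_⟩
      have h3 := (hk k hk0 hk1).1
      refine ⟨h3, ?_⟩
      rw [hrel k]
      exact mul_pos (by linarith) h3
  · obtain ⟨c, v, hv, hcv, hk⟩ := caseA hS h h0 h1
    exact ⟨c, v, hv, hcv, Or.inl hk⟩

end Pool.Agent.J6H49.DX
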